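import Pool.Agent.Helper67.PS.DI
import Pool.Agent.Helper38.PS.SC
import Pool.Agent.Helper80.PS.NU

/-!
# MP_8013d7_co, module QA: direct edges between large hubs
-/

set_option autoImplicit false

namespace PS

open SimpleGraph Finset Pool.Agent.Helper37.PathSys
open Pool.Agent.Helper37.PathSys.PathSystem

open scoped Classical

noncomputable section

namespace QA

variable {n : ℕ}

/-- A sum over ordered pairs as a sum over unordered pairs. -/
theorem sum_pr (g : Fin n × Fin n → ℝ) (hg : ∀ i, g (i, i) = 0) :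
    ∑ q, g q = ∑ p : Pr n, (g p.1 + g p.1.swap) := by
  have h1 : ∑ q, g q = ∑ q ∈ univ.filter (fun q : Fin n × Fin n => q.1 < q.2), g q +
      ∑ q ∈ univ.filter (fun q : Fin n × Fin n => q.2 < q.1), g q := by
    rw [← sum_union]
    · symm
      apply sum_subset (subset_univ _)
      intro q _ hq
      simp only [mem_union, mem_filter, mem_univ, true_and, not_or, not_lt] at hq
      have : q = (q.1, q.1) := Prod.ext rfl (le_antisymm hq.1 hq.2)
      rw [this]
      exact hg _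
    · rw [disjoint_filter]
      intro q _ h1 h2
      exact lt_asymm h1 h2
  have h2 : ∑ q ∈ univ.filter (fun q : Fin n × Fin n => q.1 < q.2), g q = ∑ p : Pr n, g p.1 := by
    rw [← sum_subtype (univ.filter (fun q : Fin n × Fin n => q.1 < q.2)) (by simp) g]
  have h3 : ∑ q ∈ univ.filter (fun q : Fin n × Fin n => q.2 < q.1), g q =
      ∑ q ∈ univ.filter (fun q : Fin n × Fin n => q.1 < q.2), g q.swap := by
    refine sum_bij (fun q _ => q.swap) ?_ ?_ ?_ ?_
    · intro q hq
      simpa using hq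
    · intro q _ q' _ h
      exact Prod.swap_injective h
    · intro q hq
      exact ⟨q.swap, by simpa using hq, by simp⟩
    · intro q _
      simp
  have h4 : ∑ q ∈ univ.filter (fun q : Fin n × Fin n => q.1 < q.2), g q.swap =
      ∑ p : Pr n, g p.1.swap := by
    rw [← sum_subtype (univ.filter (fun q : Fin n × Fin n => q.1 < q.2)) (by simp)
      (fun q => g q.swap)]
  rw [h1, h2, h3, h4, sum_add_distrib]

/-- A sum over an antisymmetric set of ordered pairs. -/
theorem sum_asym_le (S : Finset (Fin n × Fin n)) (hne : ∀ q ∈ S, q.1 ≠ q.2)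
    (hasym : ∀ q ∈ S, q.swap ∉ S) (R : Finset (Pr n))
    (hR : ∀ p : Pr n, p.1 ∈ S ∨ p.1.swap ∈ S → p ∈ R) (f : Fin n → Fin n → ℝ)
    (hsymm : ∀ u v, f u v = f v u) (hf : ∀ p ∈ R, 0 ≤ f p.1.1 p.1.2) :
    ∑ q ∈ S, f q.1 q.2 ≤ ∑ p ∈ R, f p.1.1 p.1.2 := by
  have h1 : ∑ q ∈ S, f q.1 q.2 = ∑ q : Fin n × Fin n, if q ∈ S then f q.1 q.2 else 0 := by
    rw [sum_ite_mem, univ_inter]
  rw [h1, sum_pr]
  · rw [← sum_subset (subset_univ R)]
    · refine sum_le_sum fun p hp => ?_
      by_cases h2 : p.1 ∈ S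
      · rw [if_pos h2, if_neg (hasym _ h2), add_zero]
      · rw [if_neg h2]
        by_cases h3 : p.1.swap ∈ S
        · rw [if_pos h3, zero_add]
          simp only [Prod.fst_swap, Prod.snd_swap]
          rw [hsymm]
        · rw [if_neg h3, add_zero]
          exact hf p hp
    · intro p _ hp
      have h2 : p.1 ∉ S := fun h => hp (hR p (Or.inl h))
      have h3 : p.1.swap ∉ S := fun h => hp (hR p (Or.inr h))
      rw [if_neg h2, if_neg h3, add_zero]
  · intro i
    rw [if_neg]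
    intro h
    exact hne _ h rfl

theorem cod_symm (F : SimpleGraph (Fin n)) (u v : Fin n) : cod F u v = cod F v u := by
  unfold cod
  congr 1
  ext x
  simp only [mem_filter, mem_univ, true_and]
  exact and_comm

theorem lh_symm (a : Arc n) (u v : Fin n) : lh a u v = lh a v u := by
  unfold lh
  refine card_bij (fun q _ => q.swap) ?_ ?_ ?_
  · intro q hq
    simp only [mem_filter, mem_univ, true_and, Prod.fst_swap, Prod.snd_swap] at hq ⊢
    exact ⟨hq.1.symm, hq.2.2, hq.2.1⟩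
  · intro q _ q' _ h
    exact Prod.swap_injective h
  · intro q hq
    refine ⟨q.swap, ?_, by simp⟩
    simp only [mem_filter, mem_univ, true_and, Prod.fst_swap, Prod.snd_swap] at hq ⊢
    exact ⟨hq.1.symm, hq.2.2, hq.2.1⟩

theorem psi_nonneg {t : ℝ} (ht : 0 < t) : 0 ≤ psi t := by
  unfold psi
  have := Real.log_le_sub_one_of_pos ht
  linarith

/-- The hubs of degree at least `0.45 n`. -/
def Ts (F : SimpleGraph (Fin n)) : Finset (Fin n) := univ.filter fun x => 45 * n ≤ 100 * dg F x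

theorem Ts_sub (F : SimpleGraph (Fin n)) : Ts F ⊆ Hs F := by
  intro x hx
  simp only [Ts, Hs, mem_filter, mem_univ, true_and] at hx ⊢
  omega

/-- The hubs of intermediate degree are few. -/
theorem Hs_sdiff_card {δ lam K : ℝ} {F G : SimpleGraph (Fin n)} (hn : 0 < n) (hδ : 0 ≤ δ)
    (hdeg : ∀ x, (dg G x : ℝ) ≤ (1 / 2 + δ) * n) (hF : F ≤ G) (hlam : 0 < lam)
    (hN : 2 * NN n ≤ (n : ℝ) ^ 2) (hK : 0 < K) (hMH : MH δ F ≤ K * NN n / lam ^ 2) :
    ((Hs F \ Ts F).card : ℝ) ≤ 10 * K * n / lam ^ 2 := by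
  have hn' : (0 : ℝ) < n := by exact_mod_cast hn
  have hdF : ∀ x, (dg F x : ℝ) ≤ (1 / 2 + δ) * n := by
    intro x
    refine le_trans ?_ (hdeg x)
    have : dg F x ≤ dg G x := by
      refine card_le_card ?_
      intro u hu
      simp only [NF, mem_filter, mem_univ, true_and] at hu ⊢
      exact hF hu
    exact_mod_cast this
  have h1 : ∑ x ∈ Hs F \ Ts F, (0.05 * (n : ℝ)) ≤ MH δ F := by
    unfold MH
    rw [← sum_sdiff (Ts_sub F)]
    have h2 : 0 ≤ ∑ x ∈ Ts F, ((1 / 2 + δ) * n - dg F x) :=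
      sum_nonneg fun x _ => by linarith [hdF x]
    have h3 : ∑ x ∈ Hs F \ Ts F, (0.05 * (n : ℝ)) ≤
        ∑ x ∈ Hs F \ Ts F, ((1 / 2 + δ) * n - dg F x) := by
      refine sum_le_sum fun x hx => ?_
      simp only [Ts, mem_sdiff, mem_filter, mem_univ, true_and, not_le] at hx
      have h4 : (100 : ℝ) * dg F x < 45 * n := by exact_mod_cast hx.2
      have h5 : 0 ≤ δ * n := by positivity
      linarith
    linarith
  rw [sum_const, nsmul_eq_mul] at h1
  have h2 : ((Hs F \ Ts F).card : ℝ) * (0.05 * n) ≤ K * ((n : ℝ) ^ 2 / 2) / lam ^ 2 := by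
    refine h1.trans (hMH.trans ?_)
    gcongr
    linarith
  rw [le_div_iff₀ (by positivity)]
  have h3 : ((Hs F \ Ts F).card : ℝ) * (0.05 * n) * lam ^ 2 ≤ K * ((n : ℝ) ^ 2 / 2) := by
    rwa [le_div_iff₀ (by positivity)] at h2
  have h4 : (((Hs F \ Ts F).card : ℝ) * lam ^ 2) * n ≤ (10 * K * n) * n := by linarith
  exact le_of_mul_le_mul_right h4 hn'

/-- The connectors. -/
def Con (F : SimpleGraph (Fin n)) (a : Arc n) : Finset (Fin n × Fin n) :=
  univ.filter fun q => q.1 ∉ Hs F ∧ q.2 ∈ Ts F ∧ ¬ F.Adj q.1 q.2 ∧ a q.1 q.2 = none ∧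
    a q.2 q.1 = none

/-- Number of connectors. -/
theorem Con_card {δ : ℝ} {F G : SimpleGraph (Fin n)} (a : Arc n)
    (hdeg : ∀ x, (dg G x : ℝ) ≤ (1 / 2 + δ) * n) (hF : F ≤ G) :
    ((Ts F).card : ℝ) * ((1 / 2 - δ) * n - (Hs F).card) - 2 * nb a ≤ ((Con F a).card : ℝ) := by
  have hdF : ∀ x, (dg F x : ℝ) ≤ (1 / 2 + δ) * n := by
    intro x
    refine le_trans ?_ (hdeg x)
    have : dg F x ≤ dg G x := by
      refine card_le_card ?_
      intro u hu
      simp only [NF, mem_filter, mem_univ, true_and] at hu ⊢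
      exact hF hu
    exact_mod_cast this
  -- all pairs
  have h1 : (univ : Finset (Fin n)) ×ˢ Ts F ⊆ Con F a ∪ ((Hs F) ×ˢ (Ts F) ∪
      (((Ts F).sigma (fun y => NF F y)).image (fun z => (z.2, z.1)) ∪
        ((univ.filter fun q : Fin n × Fin n => a q.1 q.2 ≠ none) ∪
        (univ.filter fun q : Fin n × Fin n => a q.1 q.2 ≠ none).image Prod.swap))) := by
    rintro ⟨u, y⟩ hq
    simp only [mem_product, mem_univ, true_and] at hq
    by_cases c1 : u ∈ Hs F
    · refine mem_union_right _ (mem_union_left _ ?_)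
      simp [c1, hq]
    by_cases c2 : F.Adj u y
    · refine mem_union_right _ (mem_union_right _ (mem_union_left _ ?_))
      rw [mem_image]
      refine ⟨⟨y, u⟩, ?_, rfl⟩
      simp [hq, NF, c2.symm]
    by_cases c3 : a u y = none
    · by_cases c4 : a y u = none
      · refine mem_union_left _ ?_
        simp [Con, c1, c2, c3, c4, hq]
      · refine mem_union_right _ (mem_union_right _ (mem_union_right _ (mem_union_right _ ?_)))
        rw [mem_image]
        exact ⟨(y, u), by simp [c4], rfl⟩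
    · refine mem_union_right _ (mem_union_right _ (mem_union_right _ (mem_union_left _ ?_)))
      simp [c3]
  have h2 := (card_le_card h1).trans ((card_union_le _ _).trans (Nat.add_le_add_left
    ((card_union_le _ _).trans (Nat.add_le_add_left ((card_union_le _ _).trans
      (Nat.add_le_add card_image_le ((card_union_le _ _).trans
        (Nat.add_le_add_left card_image_le _)))) _)) _))
  rw [card_product, card_product, card_sigma, card_univ, Fintype.card_fin] at h2
  have h3 : ((n : ℝ) * (Ts F).card) ≤ (Con F a).card + ((Hs F).card * (Ts F).card +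
      ((∑ y ∈ Ts F, (NF F y).card : ℕ) + ((nb a : ℝ) + nb a))) := by
    exact_mod_cast h2
  have h4 : ((∑ y ∈ Ts F, (NF F y).card : ℕ) : ℝ) ≤ (Ts F).card * ((1 / 2 + δ) * n) := by
    push_cast
    rw [← nsmul_eq_mul, ← sum_const]
    exact sum_le_sum fun y _ => hdF y
  linarith

/-- Long options of the connectors. -/
theorem Con_lh (F : SimpleGraph (Fin n)) (a : Arc n) :
    ∑ q ∈ Con F a, (lh a q.1 q.2 : ℝ) ≤ (Ts F).card * nb a := by
  have h1 : ∑ q ∈ Con F a, (lh a q.1 q.2) ≤ (Ts F).card * nb a := by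
    have h2 : ∑ q ∈ Con F a, (lh a q.1 q.2) =
        ((Con F a).sigma (fun q => univ.filter fun r : Fin n × Fin n =>
          r.1 ≠ r.2 ∧ a r.2 q.1 = some r.1 ∧ a r.1 q.2 = some r.2)).card := by
      rw [card_sigma]
      rfl
    rw [h2]
    unfold nb
    rw [← card_product]
    refine card_le_card_of_injOn (fun z => (z.1.2, (z.2.2, z.1.1))) ?_ ?_
    · rintro ⟨q, r⟩ hz
      simp only [Con, coe_sigma, Set.mem_sigma_iff, mem_coe, mem_filter, mem_univ, true_and] at hz
      simp only [mem_coe, mem_product, mem_filter, mem_univ, true_and]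
      refine ⟨hz.1.2.1, ?_⟩
      rw [hz.2.2.1]
      simp
    · rintro ⟨q, r⟩ hz ⟨q', r'⟩ hz' h
      simp only [Con, coe_sigma, Set.mem_sigma_iff, mem_coe, mem_filter, mem_univ, true_and]
        at hz hz'
      simp only [Prod.mk.injEq] at h
      obtain ⟨e1, e2, e3⟩ := h
      have e4 : q = q' := Prod.ext e3 e1
      subst e4
      have e5 : r.1 = r'.1 := by
        have h3 := hz.2.2.1
        have h4 := hz'.2.2.1
        rw [e2] at h3
        rw [h3] at h4
        exact Option.some.inj h4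
      have e6 : r = r' := Prod.ext e5 e2
      subst e6
      rfl
  exact_mod_cast h1

/-- Twice the number of edges missing the hubs. -/
theorem light_pairs (F : SimpleGraph (Fin n)) :
    (univ.filter fun q : Fin n × Fin n => F.Adj q.1 q.2 ∧ q.1 ∉ Hs F ∧ q.2 ∉ Hs F).card =
      2 * f0 F := by
  have h1 := sum_pr (fun q : Fin n × Fin n =>
    if F.Adj q.1 q.2 ∧ q.1 ∉ Hs F ∧ q.2 ∉ Hs F then (1 : ℝ) else 0) (by simp)
  have h2 : ∀ p : Pr n, ((if F.Adj p.1.1 p.1.2 ∧ p.1.1 ∉ Hs F ∧ p.1.2 ∉ Hs F then (1 : ℝ) else 0) +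
      (if F.Adj p.1.swap.1 p.1.swap.2 ∧ p.1.swap.1 ∉ Hs F ∧ p.1.swap.2 ∉ Hs F
        then (1 : ℝ) else 0)) =
      2 * (if F.Adj p.1.1 p.1.2 ∧ p.1.1 ∉ Hs F ∧ p.1.2 ∉ Hs F then (1 : ℝ) else 0) := by
    intro p
    have h3 : (F.Adj p.1.swap.1 p.1.swap.2 ∧ p.1.swap.1 ∉ Hs F ∧ p.1.swap.2 ∉ Hs F) ↔
        (F.Adj p.1.1 p.1.2 ∧ p.1.1 ∉ Hs F ∧ p.1.2 ∉ Hs F) := by
      simp only [Prod.fst_swap, Prod.snd_swap]
      rw [F.adj_comm]
      tauto
    rw [if_congr h3 rfl rfl]
    ring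
  rw [sum_congr rfl (fun p _ => h2 p), ← mul_sum, sum_boole, sum_boole] at h1
  unfold f0
  exact_mod_cast h1

/-- Common neighbours outside the hubs. -/
theorem Con_light (F : SimpleGraph (Fin n)) (a : Arc n) :
    ∑ q ∈ Con F a, ((univ.filter fun z => F.Adj q.1 z ∧ F.Adj q.2 z ∧ z ∉ Hs F).card : ℝ) ≤
      (Ts F).card * (2 * f0 F) := by
  have h1 : ∑ q ∈ Con F a, ((univ.filter fun z => F.Adj q.1 z ∧ F.Adj q.2 z ∧ z ∉ Hs F).card) ≤
      (Ts F).card * (2 * f0 F) := by
    rw [← light_pairs, ← card_sigma, ← card_product]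
    refine card_le_card_of_injOn (fun z => (z.1.2, (z.1.1, z.2))) ?_ ?_
    · rintro ⟨q, r⟩ hz
      simp only [Con, coe_sigma, Set.mem_sigma_iff, mem_coe, mem_filter, mem_univ, true_and] at hz
      simp only [mem_coe, mem_product, mem_filter, mem_univ, true_and]
      exact ⟨hz.1.2.1, hz.2.1, hz.1.1, hz.2.2.2⟩
    · rintro ⟨q, r⟩ _ ⟨q', r'⟩ _ h
      simp only [Prod.mk.injEq] at h
      obtain ⟨e1, e2, e3⟩ := h
      have e4 : q = q' := Prod.ext e2 e1
      subst e4
      subst e3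
      rfl
  exact_mod_cast h1

/-- Edges between hubs and large hubs. -/
def E1 (F : SimpleGraph (Fin n)) : Finset (Fin n × Fin n) :=
  univ.filter fun q => F.Adj q.1 q.2 ∧ q.1 ∈ Hs F ∧ q.2 ∈ Ts F

/-- Common neighbours among the hubs. -/
theorem Con_heavy (F : SimpleGraph (Fin n)) (a : Arc n) :
    ∑ q ∈ Con F a, ((univ.filter fun z => F.Adj q.1 z ∧ F.Adj q.2 z ∧ z ∈ Hs F).card : ℝ) ≤
      n * (E1 F).card := by
  have h1 : ∑ q ∈ Con F a, ((univ.filter fun z => F.Adj q.1 z ∧ F.Adj q.2 z ∧ z ∈ Hs F).card) ≤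
      n * (E1 F).card := by
    have h0 : n * (E1 F).card = ((univ : Finset (Fin n)) ×ˢ (E1 F)).card := by
      rw [card_product, card_univ, Fintype.card_fin]
    rw [h0, ← card_sigma]
    refine card_le_card_of_injOn (fun z => (z.1.1, (z.2, z.1.2))) ?_ ?_
    · rintro ⟨q, r⟩ hz
      simp only [Con, coe_sigma, Set.mem_sigma_iff, mem_coe, mem_filter, mem_univ, true_and] at hz
      simp only [E1, mem_coe, mem_product, mem_filter, mem_univ, true_and]
      exact ⟨hz.2.2.1.symm, hz.2.2.2, hz.1.2.1⟩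
    · rintro ⟨q, r⟩ _ ⟨q', r'⟩ _ h
      simp only [Prod.mk.injEq] at h
      obtain ⟨e1, e2, e3⟩ := h
      have e4 : q = q' := Prod.ext e1 e3
      subst e4
      subst e2
      rfl
  exact_mod_cast h1

theorem E1_card (F : SimpleGraph (Fin n)) :
    ((E1 F).card : ℝ) ≤ ((univ.filter fun q : Fin n × Fin n =>
        F.Adj q.1 q.2 ∧ 45 * n ≤ 100 * dg F q.1 ∧ 45 * n ≤ 100 * dg F q.2).card : ℝ) +
      (Hs F \ Ts F).card * (Ts F).card := by
  have h1 : E1 F ⊆ (univ.filter fun q : Fin n × Fin n =>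
        F.Adj q.1 q.2 ∧ 45 * n ≤ 100 * dg F q.1 ∧ 45 * n ≤ 100 * dg F q.2) ∪
      (Hs F \ Ts F) ×ˢ (Ts F) := by
    rintro ⟨u, y⟩ hq
    simp only [E1, mem_filter, mem_univ, true_and] at hq
    by_cases c : u ∈ Ts F
    · refine mem_union_left _ ?_
      have h2 := hq.2.2
      simp only [Ts, mem_filter, mem_univ, true_and] at c h2 ⊢
      exact ⟨hq.1, c, h2⟩
    · refine mem_union_right _ ?_
      simp [c, hq.2.1, hq.2.2]
  have h2 := (card_le_card h1).trans (card_union_le _ _)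
  rw [card_product] at h2
  exact_mod_cast h2

/-- Splitting the number of options. -/
theorem kk_split (F : SimpleGraph (Fin n)) (a : Arc n) (q : Fin n × Fin n) :
    ((cod F q.1 q.2 : ℝ) + lh a q.1 q.2) =
      (lh a q.1 q.2 : ℝ) +
      ((univ.filter fun z => F.Adj q.1 z ∧ F.Adj q.2 z ∧ z ∉ Hs F).card : ℝ) +
      ((univ.filter fun z => F.Adj q.1 z ∧ F.Adj q.2 z ∧ z ∈ Hs F).card : ℝ) := by
  have h1 : cod F q.1 q.2 =
      (univ.filter fun z => F.Adj q.1 z ∧ F.Adj q.2 z ∧ z ∉ Hs F).card +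
      (univ.filter fun z => F.Adj q.1 z ∧ F.Adj q.2 z ∧ z ∈ Hs F).card := by
    unfold cod
    rw [← card_union_of_disjoint]
    · congr 1
      ext z
      simp only [mem_filter, mem_univ, true_and, mem_union]
      tauto
    · rw [disjoint_filter]
      intro z _ h1 h2
      exact h1.2.2 h2.2.2
  rw [h1]
  push_cast
  ring

/-- The deficit controls the deficit of the connectors. -/
theorem Con_psi (F : SimpleGraph (Fin n)) (a : Arc n) {h : ℕ} {ξ : ℝ} (hh : (0 : ℝ) < h)
    (hξ : 0 < ξ) :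
    ∑ q ∈ Con F a, psi (4 * (((cod F q.1 q.2 : ℝ) + lh a q.1 q.2) + ξ) / h) ≤ Psi h ξ F a := by
  have h0 : Psi h ξ F a = ∑ p ∈ Rem F a,
      psi (4 * (((cod F p.1.1 p.1.2 : ℝ) + lh a p.1.1 p.1.2) + ξ) / h) := by
    unfold Psi kap
    refine sum_congr rfl fun p _ => ?_
    push_cast
    rfl
  rw [h0]
  refine sum_asym_le (Con F a) ?_ ?_ (Rem F a) ?_
    (fun u v => psi (4 * (((cod F u v : ℝ) + lh a u v) + ξ) / h)) ?_ ?_
  · intro q hq e
    simp only [Con, mem_filter, mem_univ, true_and] at hq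
    exact hq.1 (e ▸ Ts_sub F hq.2.1)
  · intro q hq hq'
    simp only [Con, mem_filter, mem_univ, true_and, Prod.fst_swap, Prod.snd_swap] at hq hq'
    exact hq.1 (Ts_sub F hq'.2.1)
  · intro p hp
    rw [mem_Rem]
    simp only [Con, mem_filter, mem_univ, true_and, Prod.fst_swap, Prod.snd_swap] at hp
    rcases hp with hp | hp
    · exact ⟨hp.2.2.1, hp.2.2.2.1, hp.2.2.2.2⟩
    · exact ⟨fun h => hp.2.2.1 h.symm, hp.2.2.2.2, hp.2.2.2.1⟩
  · intro u v
    rw [cod_symm, lh_symm]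
  · intro p _
    apply psi_nonneg
    positivity

/-- The number of options is large at most of the connectors. -/
theorem kk_of_psi {h : ℕ} {ξ K' lam k : ℝ} (hh : (0 : ℝ) < h) (hlam : 0 < lam) (hk : 0 ≤ k)
    (hξ : 0 < ξ) (hξ' : 4 * ξ / h ≤ 1 / lam) (hlam2 : 2 ≤ Real.exp (-1 - K') * lam)
    (hpsi : psi (4 * (k + ξ) / h) ≤ K') : Real.exp (-1 - K') / 8 * h ≤ k := by
  set t : ℝ := 4 * (k + ξ) / h with ht
  have ht0 : 0 < t := by positivity
  have h1 : -1 - K' ≤ Real.log t := by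
    unfold psi at hpsi
    linarith
  have h2 : Real.exp (-1 - K') ≤ t := by
    rw [← Real.exp_log ht0]
    exact Real.exp_le_exp.2 h1
  have h3 : Real.exp (-1 - K') * h ≤ 4 * (k + ξ) := by
    rw [ht, le_div_iff₀ hh] at h2
    exact h2
  have h4 : 4 * ξ * lam ≤ h := by
    rw [div_le_div_iff₀ hh hlam] at hξ'
    linarith
  have h5 : 4 * ξ * 2 ≤ Real.exp (-1 - K') * h := by
    have h6 : 4 * ξ * 2 ≤ 4 * ξ * (Real.exp (-1 - K') * lam) := by
      gcongr
    have h7 : Real.exp (-1 - K') * (4 * ξ * lam) ≤ Real.exp (-1 - K') * h := by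
      gcongr
    linarith
  linarith

end QA

open QA

theorem hub_edges (K : ℝ) (hK : 0 < K) : ∃ c : ℝ, 0 < c ∧ ∃ Λ0 : ℝ,
    ∀ (n h s : ℕ) (lam δ ξ : ℝ), Par n h lam δ → Λ0 ≤ lam → 0 < ξ → 4 * ξ / h ≤ 1 / lam →
    ∀ (G : SimpleGraph (Fin n)), GoodG δ h G →
    ∀ (P : PathSystem G), P.Consistent → Typ K δ lam ξ h s P →
      c * (n : ℝ) ^ 2 / lam ^ 2 ≤ ((univ.filter fun q : Fin n × Fin n =>
        (dirG P).Adj q.1 q.2 ∧ 45 * n ≤ 100 * dg (dirG P) q.1 ∧
          45 * n ≤ 100 * dg (dirG P) q.2).card : ℝ) := by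
  obtain ⟨C, hC, Λ1, hsc⟩ := small_cod K hK
  set K' : ℝ := 200 * K with hK'
  set e0 : ℝ := Real.exp (-1 - K') / 8 with he0
  have he0' : 0 < e0 := by positivity
  refine ⟨e0 / 4000, by positivity, max Λ1 (max (3 * C) (max (3200 * K) (max (50000 * (K + 1))
    (max (1000 * K / e0) (2 / (8 * e0)))))), ?_⟩
  intro n h s lam δ ξ hp hΛ hξ hξ' G hG P hP hT
  have l1 : Λ1 ≤ lam := (le_max_left _ _).trans hΛ
  have hΛ := (le_max_right _ _).trans hΛ
  have l2 : 3 * C ≤ lam := (le_max_left _ _).trans hΛ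
  have hΛ := (le_max_right _ _).trans hΛ
  have l3 : 3200 * K ≤ lam := (le_max_left _ _).trans hΛ
  have hΛ := (le_max_right _ _).trans hΛ
  have l4 : 50000 * (K + 1) ≤ lam := (le_max_left _ _).trans hΛ
  have hΛ := (le_max_right _ _).trans hΛ
  have l5 : 1000 * K / e0 ≤ lam := (le_max_left _ _).trans hΛ
  have l6 : 2 / (8 * e0) ≤ lam := (le_max_right _ _).trans hΛ
  have hlam6 : (10 : ℝ) ^ 6 ≤ lam := hp.big
  have hlam : 0 < lam := by linarith
  obtain ⟨n1, n2, n3, n4, n5, n6, n7, n8, n9⟩ := num_n hp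
  have hn' : (0 : ℝ) < n := by linarith
  have hn : 0 < n := by exact_mod_cast hn'
  set F := dirG P with hF
  set a := arcP s P with ha
  have hFG : F ≤ G := dirG_le hP
  -- n and h
  have hnh : (n : ℝ) ≤ (lam + 2) * h := by
    have h1 := (abs_le.1 hp.close).2
    have h2 : (n : ℝ) / h ≤ lam + 2 := by linarith
    rwa [div_le_iff₀ n9] at h2
  have hnh2 : (n : ℝ) ≤ 2 * lam * h := by
    refine hnh.trans ?_
    gcongr
    linarith
  have hδ : δ ≤ 0.001 := by
    have h1 := hp.dsmall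
    have h2 : δ * 1000 ≤ δ * lam ^ 4 := by
      have : (1000 : ℝ) ≤ lam ^ 4 := by
        calc (1000 : ℝ) ≤ (10 ^ 6) ^ 4 := by norm_num
          _ ≤ lam ^ 4 := by gcongr
      exact mul_le_mul_of_nonneg_left this hp.dpos
    linarith
  -- the hubs
  have hHs : ((Hs F).card : ℝ) ≤ 400 * n / lam := Hs_card hp hT.edges
  have hHT : ((Hs F \ Ts F).card : ℝ) ≤ 10 * K * n / lam ^ 2 :=
    Hs_sdiff_card hn hp.dpos hG.deg hFG hlam n4 hK hT.mh
  have hHT2 : ((Hs F \ Ts F).card : ℝ) ≤ 20 * K * h / lam := by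
    refine hHT.trans ?_
    rw [div_le_div_iff₀ (by positivity) hlam]
    linarith [mul_le_mul_of_nonneg_left hnh2 (show 0 ≤ 10 * K * lam by positivity)]
  have hHlow : (h : ℝ) ≤ 32 * (Hs F).card := by
    by_contra hcon
    push Not at hcon
    have h1 := hsc n h s lam δ ξ hp l1 hξ hξ' G P hP hT
    have h2 : (univ.filter fun p : Pr n => 32 * (((NF (dirG P) p.1.1 ∩ NF (dirG P) p.1.2) ∩
        Hs (dirG P)).card : ℝ) < h) = univ := by
      rw [filter_eq_self]
      intro p _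
      refine lt_of_le_of_lt ?_ hcon
      have : ((NF (dirG P) p.1.1 ∩ NF (dirG P) p.1.2) ∩ Hs (dirG P)).card ≤ (Hs F).card :=
        card_le_card inter_subset_right
      have h3 : (((NF (dirG P) p.1.1 ∩ NF (dirG P) p.1.2) ∩ Hs (dirG P)).card : ℝ) ≤
          (Hs F).card := by exact_mod_cast this
      linarith
    rw [h2, card_univ, card_Pr] at h1
    have h3 : NN n ≤ C * n ^ 2 / lam := h1
    rw [le_div_iff₀ hlam] at h3
    have h4 : C * (n : ℝ) ^ 2 ≤ C * (2.1 * NN n) := by gcongr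
    linarith [mul_le_mul_of_nonneg_left l2 n8.le, mul_pos hC n8]
  have hTlow : (h : ℝ) / 40 ≤ (Ts F).card := by
    have h1 : ((Hs F).card : ℝ) = (Hs F \ Ts F).card + (Ts F).card := by
      have := card_sdiff_add_card_eq_card (Ts_sub F)
      exact_mod_cast this.symm
    have h2 : 20 * K * h / lam ≤ h / 160 := by
      rw [div_le_div_iff₀ hlam (by norm_num)]
      linarith [mul_le_mul_of_nonneg_right l3 n9.le]
    linarith
  have hT0 : (0 : ℝ) < (Ts F).card := by linarith [div_pos n9 (show (0 : ℝ) < 40 by norm_num)]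
  have hnT : (n : ℝ) ≤ 80 * lam * (Ts F).card := by
    linarith [mul_le_mul_of_nonneg_left hTlow (show 0 ≤ 2 * lam by positivity)]
  -- the number of arcs
  have hnb : (nb a : ℝ) ≤ 40 * K / lam * (n * (Ts F).card) := by
    refine hT.nb.trans ?_
    have h1 : K * NN n / lam ^ 2 ≤ K * (n ^ 2 / 2) / lam ^ 2 := by
      gcongr
      linarith
    refine h1.trans ?_
    rw [div_mul_eq_mul_div, div_le_div_iff₀ (by positivity) hlam]
    have h3 := mul_le_mul_of_nonneg_left hnT (show 0 ≤ K * lam * n / 2 by positivity)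
    linarith
  -- the number of connectors
  have hCon : 0.44 * (n * (Ts F).card) ≤ ((Con F a).card : ℝ) := by
    have h1 := Con_card a hG.deg hFG
    have h2 : 400 * (n : ℝ) / lam ≤ 0.01 * n := by
      rw [div_le_iff₀ hlam]
      linarith [mul_le_mul_of_nonneg_left hlam6 hn'.le]
    have h3 : 40 * K / lam ≤ 0.001 := by
      rw [div_le_iff₀ hlam]
      linarith
    have h4 : (nb a : ℝ) ≤ 0.001 * (n * (Ts F).card) := by
      refine hnb.trans ?_
      gcongr
    have h5 : (0.48 : ℝ) * n ≤ (1 / 2 - δ) * n - (Hs F).card := by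
      linarith [mul_le_mul_of_nonneg_right hδ hn'.le]
    have h6 := mul_le_mul_of_nonneg_left h5 hT0.le
    linarith [mul_pos hn' hT0]
  -- bad connectors
  set kk : Fin n × Fin n → ℝ := fun q => (cod F q.1 q.2 : ℝ) + lh a q.1 q.2 with hkk
  have hkk0 : ∀ q, 0 ≤ kk q := fun q => by positivity
  set Bd := (Con F a).filter fun q => K' < psi (4 * (kk q + ξ) / h) with hBd
  have hBd1 : (Bd.card : ℝ) ≤ 0.2 * (n * (Ts F).card) := by
    have h1 := (Con_psi F a n9 hξ).trans hT.psi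
    have h2 : ∑ q ∈ Bd, K' ≤ ∑ q ∈ Con F a, psi (4 * (kk q + ξ) / h) := by
      refine (sum_le_sum (f := fun _ => K') (g := fun q => psi (4 * (kk q + ξ) / h)) ?_).trans
        (sum_le_sum_of_subset_of_nonneg (filter_subset _ _) ?_)
      · intro q hq
        exact (mem_filter.1 hq).2.le
      · intro q _ _
        apply psi_nonneg
        have := hkk0 q
        positivity
    rw [sum_const, nsmul_eq_mul] at h2
    have h3 : (Bd.card : ℝ) * K' ≤ K * NN n / lam := h2.trans h1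
    have h4 : K * NN n / lam ≤ K * (n ^ 2 / 2) / lam := by
      gcongr
      linarith
    have h6 : K * ((n : ℝ) ^ 2 / 2) / lam ≤ 40 * K * (n * (Ts F).card) := by
      rw [div_le_iff₀ hlam]
      have := mul_le_mul_of_nonneg_left hnT (show 0 ≤ K * n / 2 by positivity)
      linarith
    have h7 : (Bd.card : ℝ) * (200 * K) ≤ (0.2 * (n * (Ts F).card)) * (200 * K) := by
      rw [← hK']
      rw [hK'] at h3 ⊢
      linarith
    exact le_of_mul_le_mul_right h7 (by positivity)
  have hgood : 0.24 * (n * (Ts F).card) ≤ ((Con F a \ Bd).card : ℝ) := by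
    have h1 : ((Con F a \ Bd).card : ℝ) = (Con F a).card - Bd.card := by
      rw [card_sdiff_of_subset (filter_subset _ _), Nat.cast_sub (card_le_card (filter_subset _ _))]
    rw [h1]
    linarith
  have hsum : e0 * h * (0.24 * (n * (Ts F).card)) ≤ ∑ q ∈ Con F a, kk q := by
    have h1 : ∑ q ∈ Con F a \ Bd, e0 * h ≤ ∑ q ∈ Con F a, kk q := by
      refine (sum_le_sum (f := fun _ => e0 * (h : ℝ)) (g := kk) ?_).trans
        (sum_le_sum_of_subset_of_nonneg sdiff_subset (fun q _ _ => hkk0 q))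
      intro q hq
      rw [mem_sdiff] at hq
      have h2 : psi (4 * (kk q + ξ) / h) ≤ K' := by
        by_contra hcon
        push Not at hcon
        exact hq.2 (mem_filter.2 ⟨hq.1, hcon⟩)
      refine kk_of_psi n9 hlam (hkk0 q) hξ hξ' ?_ h2
      rw [div_le_iff₀ (by positivity)] at l6
      rw [he0] at l6
      linarith
    rw [sum_const, nsmul_eq_mul] at h1
    refine le_trans ?_ h1
    rw [mul_comm]
    gcongr
  have hsplit : ∑ q ∈ Con F a, kk q ≤ (Ts F).card * nb a + (Ts F).card * (2 * f0 F) +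
      n * (E1 F).card := by
    have h1 : ∑ q ∈ Con F a, kk q = ∑ q ∈ Con F a, ((lh a q.1 q.2 : ℝ) +
      ((univ.filter fun z => F.Adj q.1 z ∧ F.Adj q.2 z ∧ z ∉ Hs F).card : ℝ) +
      ((univ.filter fun z => F.Adj q.1 z ∧ F.Adj q.2 z ∧ z ∈ Hs F).card : ℝ)) :=
      sum_congr rfl fun q _ => kk_split F a q
    rw [h1, sum_add_distrib, sum_add_distrib]
    linarith [Con_lh F a, Con_light F a, Con_heavy F a]
  have hE1 := E1_card F
  set E2 : ℝ := ((univ.filter fun q : Fin n × Fin n =>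
        F.Adj q.1 q.2 ∧ 45 * n ≤ 100 * dg F q.1 ∧ 45 * n ≤ 100 * dg F q.2).card : ℝ) with hE2
  set T : ℝ := ((Ts F).card : ℝ) with hTdef
  -- combine
  have hsm : K * NN n / lam ^ 2 ≤ K / lam * (n * h) := by
    have h1 : K * NN n / lam ^ 2 ≤ K * (n ^ 2 / 2) / lam ^ 2 := by
      gcongr
      linarith
    refine h1.trans ?_
    rw [div_mul_eq_mul_div, div_le_div_iff₀ (by positivity) hlam]
    have h3 := mul_le_mul_of_nonneg_left hnh2 (show 0 ≤ K * lam * n / 2 by positivity)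
    linarith
  have c1 : T * nb a ≤ T * (K / lam * (n * h)) := by
    gcongr
    exact hT.nb.trans hsm
  have c2 : T * (2 * f0 F) ≤ T * (2 * (K / lam * (n * h))) := by
    gcongr
    exact hT.f0.trans hsm
  have c3 : (n : ℝ) * (E1 F).card ≤ n * E2 + n * (20 * K * h / lam) * T := by
    have h1 := mul_le_mul_of_nonneg_left hE1 hn'.le
    have h2 : (n : ℝ) * ((Hs F \ Ts F).card * T) ≤ n * (20 * K * h / lam * T) := by
      gcongr
    linarith
  have c4 : e0 * h * (0.24 * (n * T)) ≤ T * (3 * (K / lam * (n * h))) + n * E2 +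
      n * (20 * K * h / lam) * T := by
    linarith
  have c5 : K / lam ≤ e0 / 1000 := by
    rw [div_le_iff₀ he0'] at l5
    rw [div_le_div_iff₀ hlam (by norm_num)]
    linarith
  have c6 : T * (3 * (K / lam * (n * h))) + n * (20 * K * h / lam) * T =
      23 * (K / lam) * (n * h * T) := by ring
  have c7 : 23 * (K / lam) * (n * h * T) ≤ 23 * (e0 / 1000) * (n * h * T) := by
    gcongr
  have c8 : (n : ℝ) * (0.2 * e0 * h * T) ≤ n * E2 := by
    have c0 : 0 ≤ e0 * (n * h * T) := by positivity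
    linarith [c4, c6, c7]
  have c9 : 0.2 * e0 * h * T ≤ E2 := le_of_mul_le_mul_left c8 hn'
  have c10 : 0.2 * e0 * h * (h / 40) ≤ E2 := by
    refine le_trans ?_ c9
    gcongr
  refine le_trans ?_ c10
  rw [div_le_iff₀ (by positivity)]
  have c11 : (n : ℝ) ^ 2 ≤ (2 * lam * h) ^ 2 := by gcongr
  have c12 := mul_le_mul_of_nonneg_left c11 (show 0 ≤ e0 / 4000 by positivity)
  have c13 : 0 ≤ e0 * (lam ^ 2 * (h : ℝ) ^ 2) := by positivity
  linarith

end

end PS
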